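import Pool.Agent.H37.SP.Stm

/-!
Part FIN of crew SP.
-/

set_option autoImplicit false

namespace Pool.Agent.H81.SP

open Pool.Agent.H37.SP Finset

theorem bound_of_mem {k : ℕ} (hk : 2 ≤ k) {s : Multiset ℕ} (hs : s ∈ solSet k) :
    ∀ a ∈ s, a ≤ k * k := by
  obtain ⟨hc, hpos, hps⟩ := hs
  have hne : s.toFinset.Nonempty := by
    rw [Finset.nonempty_iff_ne_empty]
    intro h
    rw [Multiset.toFinset_eq_empty] at h
    rw [h, Multiset.card_zero] at hc
    omega
  obtain ⟨M, hM, hmax⟩ := Finset.exists_max_image s.toFinset id hne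
  rw [Multiset.mem_toFinset] at hM
  have hmax' : ∀ b ∈ s, b ≤ M := fun b hb => hmax b (Multiset.mem_toFinset.2 hb)
  obtain ⟨s', rfl⟩ := Multiset.exists_cons_of_mem hM
  rw [Multiset.card_cons] at hc
  rw [Multiset.prod_cons, Multiset.sum_cons] at hps
  have hMpos : 0 < M := hpos M hM
  have hpos' : ∀ a ∈ s', 1 ≤ a := fun a ha => hpos a (Multiset.mem_cons_of_mem ha)
  have hsum1 : Multiset.card s' • 1 ≤ s'.sum := Multiset.card_nsmul_le_sum hpos'
  have hsum2 : s'.sum ≤ Multiset.card s' • M :=
    Multiset.sum_le_card_nsmul _ _ fun a ha => hmax' a (Multiset.mem_cons_of_mem ha)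
  rw [smul_eq_mul] at hsum1 hsum2
  have hQpos : 0 < s'.prod := by
    rw [Nat.pos_iff_ne_zero]
    intro h
    rw [Multiset.prod_eq_zero_iff] at h
    have := hpos' 0 h
    omega
  have hQ2 : 2 ≤ s'.prod := by
    by_contra h
    have h1 : s'.prod = 1 := by omega
    rw [h1, mul_one] at hps
    omega
  have hQk : s'.prod ≤ k := by
    have h1 : M * s'.prod ≤ M * k := by
      rw [hps]
      calc M + s'.sum ≤ M + Multiset.card s' * M := by omega
        _ = M * (Multiset.card s' + 1) := by ring
        _ = M * k := by rw [hc]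
    exact Nat.le_of_mul_le_mul_left h1 hMpos
  have hle : ∀ b ∈ s', b ≤ k := fun b hb =>
    (Nat.le_of_dvd hQpos (Multiset.dvd_prod hb)).trans hQk
  have hsum3 : s'.sum ≤ Multiset.card s' • k := Multiset.sum_le_card_nsmul _ _ hle
  rw [smul_eq_mul] at hsum3
  have hMk : M ≤ k * k := by
    have h1 : M * 2 ≤ M * s'.prod := Nat.mul_le_mul_left M hQ2
    have h2 : M ≤ s'.sum := by omega
    have h3 : Multiset.card s' * k ≤ k * k := Nat.mul_le_mul_right k (by omega)
    omega
  intro a ha
  exact (hmax' a ha).trans hMk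

theorem t_FIN : S_FIN := by
  intro k hk
  refine Set.Finite.subset ((k • (Finset.range (k * k + 1)).val).powerset.toFinset.finite_toSet)
    ?_
  intro s hs
  rw [Finset.mem_coe, Multiset.mem_toFinset, Multiset.mem_powerset, Multiset.le_iff_count]
  intro a
  by_cases ha : a ∈ s
  · have h1 := bound_of_mem hk hs a ha
    rw [Multiset.count_nsmul]
    have h2 : Multiset.count a (Finset.range (k * k + 1)).val = 1 :=
      Multiset.count_eq_one_of_mem (Finset.range (k * k + 1)).nodup
        (by rw [Finset.mem_val, Finset.mem_range]; omega)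
    rw [h2, mul_one, ← hs.1]
    exact Multiset.count_le_card a s
  · rw [Multiset.count_eq_zero_of_notMem ha]
    exact Nat.zero_le _

end Pool.Agent.H81.SP
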