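import Pool.Agent.H37.SP.Stm

/-!
Part TAU of crew SP.
-/

set_option autoImplicit false

namespace Pool.Agent.H81.SP

open Pool.Agent.H37.SP Finset
open scoped Pointwise

theorem tau_mul_le (d e : ℕ) : (d * e).divisors.card ≤ d.divisors.card * e.divisors.card := by
  rw [Nat.divisors_mul]
  exact Finset.card_mul_le

theorem t_TAU : S_TAU := by
  intro j D hD
  have hlog : 0 ≤ Real.log D := Real.log_natCast_nonneg D
  induction j with
  | zero =>
    have h1 := harmonic_le_one_add_log D
    rw [harmonic_eq_sum_Icc] at h1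
    push_cast at h1
    simp only [pow_zero, pow_one, one_div]
    exact h1
  | succ j ih =>
    set f : ℕ × ℕ → ℝ := fun x => (((x.1).divisors.card : ℝ) ^ j / x.1) *
      (((x.2).divisors.card : ℝ) ^ j / x.2) with hf
    have hf0 : ∀ x, 0 ≤ f x := fun x => by rw [hf]; positivity
    set P : Finset (ℕ × ℕ) := (Finset.Icc 1 D ×ˢ Finset.Icc 1 D).filter
      (fun x => x.1 * x.2 ∈ Finset.Icc 1 D) with hP
    have h1 : ∀ n ∈ Finset.Icc 1 D, ((n.divisors.card : ℝ) ^ (j + 1)) / n ≤
        ∑ x ∈ P.filter (fun x => x.1 * x.2 = n), f x := by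
      intro n hn
      have hn' := Finset.mem_Icc.1 hn
      have h2 : ((n.divisors.card : ℝ) ^ (j + 1)) / n =
          ∑ x ∈ n.divisorsAntidiagonal, ((n.divisors.card : ℝ) ^ j) / n := by
        rw [Nat.sum_divisorsAntidiagonal (fun _ _ => ((n.divisors.card : ℝ) ^ j) / n),
          Finset.sum_const, nsmul_eq_mul, pow_succ]
        ring
      rw [h2]
      have h3 : ∑ x ∈ n.divisorsAntidiagonal, ((n.divisors.card : ℝ) ^ j) / n ≤
          ∑ x ∈ n.divisorsAntidiagonal, f x := by
        refine Finset.sum_le_sum fun x hx => ?_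
        obtain ⟨hx1, hx2⟩ := Nat.mem_divisorsAntidiagonal.1 hx
        have hpos : 0 < n := by omega
        have hx1pos : 0 < x.1 := by
          rcases Nat.eq_zero_or_pos x.1 with h | h
          · rw [h, zero_mul] at hx1; omega
          · exact h
        have hx2pos : 0 < x.2 := by
          rcases Nat.eq_zero_or_pos x.2 with h | h
          · rw [h, mul_zero] at hx1; omega
          · exact h
        rw [hf]
        have e : (((x.1).divisors.card : ℝ) ^ j / x.1) * (((x.2).divisors.card : ℝ) ^ j / x.2) =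
            (((x.1).divisors.card : ℝ) * ((x.2).divisors.card : ℝ)) ^ j / (n : ℝ) := by
          rw [← hx1]
          push_cast
          rw [mul_pow]
          field_simp
        simp only
        rw [e]
        have h4 : (n.divisors.card : ℝ) ≤ ((x.1).divisors.card : ℝ) * ((x.2).divisors.card : ℝ) := by
          rw [← hx1]
          exact_mod_cast tau_mul_le x.1 x.2
        gcongr
      refine h3.trans (Finset.sum_le_sum_of_subset_of_nonneg ?_ fun x _ _ => hf0 x)
      intro x hx
      obtain ⟨hx1, hx2⟩ := Nat.mem_divisorsAntidiagonal.1 hx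
      have hx1pos : 0 < x.1 := by
        rcases Nat.eq_zero_or_pos x.1 with h | h
        · rw [h, zero_mul] at hx1; omega
        · exact h
      have hx2pos : 0 < x.2 := by
        rcases Nat.eq_zero_or_pos x.2 with h | h
        · rw [h, mul_zero] at hx1; omega
        · exact h
      have hx1le : x.1 ≤ n := by rw [← hx1]; exact Nat.le_mul_of_pos_right _ hx2pos
      have hx2le : x.2 ≤ n := by rw [← hx1]; exact Nat.le_mul_of_pos_left _ hx1pos
      rw [Finset.mem_filter, hP, Finset.mem_filter, Finset.mem_product, Finset.mem_Icc,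
        Finset.mem_Icc, hx1]
      exact ⟨⟨⟨⟨hx1pos, by omega⟩, ⟨hx2pos, by omega⟩⟩, hn⟩, rfl⟩
    calc ∑ d ∈ Finset.Icc 1 D, ((d.divisors.card : ℝ) ^ (j + 1)) / d
        ≤ ∑ n ∈ Finset.Icc 1 D, ∑ x ∈ P.filter (fun x => x.1 * x.2 = n), f x :=
          Finset.sum_le_sum h1
      _ = ∑ x ∈ P, f x := by
          apply Finset.sum_fiberwise_of_maps_to
          intro x hx
          exact (Finset.mem_filter.1 hx).2
      _ ≤ ∑ x ∈ Finset.Icc 1 D ×ˢ Finset.Icc 1 D, f x :=
          Finset.sum_le_sum_of_subset_of_nonneg (Finset.filter_subset _ _) fun x _ _ => hf0 x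
      _ = (∑ d ∈ Finset.Icc 1 D, ((d.divisors.card : ℝ) ^ j) / d) ^ 2 := by
          rw [sq, Finset.sum_mul_sum, Finset.sum_product]
      _ ≤ ((1 + Real.log D) ^ (2 ^ j)) ^ 2 :=
          pow_le_pow_left₀ (Finset.sum_nonneg fun d _ => by positivity) ih 2
      _ = (1 + Real.log D) ^ (2 ^ (j + 1)) := by
          exact (pow_mul (1 + Real.log (D : ℝ)) (2 ^ j) 2).symm

end Pool.Agent.H81.SP
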